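import Mathlib
import Pool.Agent.W295.NL.Stm

set_option autoImplicit false

namespace Pool.Agent.W404.NL.BG

open Pool.Agent.W295.NL

theorem main : Pool.Agent.W295.NL.S_BG := by
  intro Q L n hn hBip
  obtain ⟨X, κ, hC, hB⟩ := hBip
  have kmod : ∀ t t', t ≡ t' [MOD 2 * n] → κ t = κ t' := by
    intro t t' h
    have hp : Function.Periodic κ (2 * n) := hC.kper
    rw [← hp.map_mod_nat t, ← hp.map_mod_nat t', h]
  have parity : ∀ t t' : ℕ, ¬ t ≡ t' [MOD 2] → t' ≡ t + 1 [MOD 2] := by
    intro t t' h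
    simp only [Nat.ModEq] at *
    omega
  have hA : ∀ a t t', X a t = X a t' → ¬ t ≡ t' [MOD 2] → a = κ (t + 1) →
      t' ≡ t + 1 [MOD 2 * n] := by
    intro a t t' hX hp ha
    have he := hC.edge t
    rw [← ha] at he
    exact hB a t' (t + 1) (by rw [he, hX]) (parity t t' hp)
  have hB' : ∀ a t t', X a t = X a t' → ¬ t ≡ t' [MOD 2] → a = κ t →
      t' + 1 ≡ t [MOD 2 * n] := by
    intro a t t' hX hp ha
    obtain ⟨s, hs⟩ : ∃ s, s + 1 = t + 2 * n := ⟨t + 2 * n - 1, by omega⟩
    have he := hC.edge s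
    rw [hs, hC.kper, ← ha, hC.per] at he
    have hps : t' ≡ s [MOD 2] := by
      have := parity t t' hp
      simp only [Nat.ModEq] at *
      omega
    have h1 : t' ≡ s [MOD 2 * n] := hB a t' s (by rw [← he, hX]) hps
    have h2 : t' + 1 ≡ s + 1 [MOD 2 * n] := h1.add_right 1
    rw [hs] at h2
    exact h2.trans (by simp [Nat.ModEq])
  refine ⟨X, κ, fun t => (t : ZMod 2), hC, ?_, ?_⟩
  · intro t
    have : ((2 : ℕ) : ZMod 2) = 0 := ZMod.natCast_self 2
    push_cast at this ⊢
    rw [this]; ring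
  · intro a t t' hX
    by_cases hp : t ≡ t' [MOD 2]
    · exact Or.inl (hB a t t' hX hp).symm
    · have hp' : ¬ t' ≡ t [MOD 2] := fun h => hp h.symm
      by_cases h1 : a = κ (t + 1)
      · exact Or.inr (Or.inl ⟨h1, hA a t t' hX hp h1⟩)
      · by_cases h2 : a = κ t
        · exact Or.inr (Or.inr (Or.inl ⟨h2, hB' a t t' hX hp h2⟩))
        · refine Or.inr (Or.inr (Or.inr ⟨h2, h1, ?_, ?_, ?_⟩))
          · intro h3
            have := hB' a t' t hX.symm hp' h3
            exact h1 (h3.trans (kmod _ _ this).symm)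
          · intro h3
            have := hA a t' t hX.symm hp' h3
            exact h2 (h3.trans (kmod _ _ this).symm)
          · intro h3
            exact hp ((ZMod.natCast_eq_natCast_iff t t' 2).1 h3)

end Pool.Agent.W404.NL.BG
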